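import Pool.Agent.Lib.helper10.ER
import Pool.Agent.H.MP_493890.A

namespace Pool.Agent.H.MP_1644e0

open Set Cardinal Topology Function

theorem disc (P : Type) : ∃ μ : Cardinal.{0}, ∀ (X : Type) [TopologicalSpace X] [T2Space X]
    (D : P → Set X), (∀ p, μ ≤ #(D p)) → ∃ x : P → X, (∀ p, x p ∈ D p) ∧
      ∀ p, ∃ W, IsOpen W ∧ x p ∈ W ∧ ∀ r, r ≠ p → x r ∉ W := by
  classical
  let _ : LinearOrder P := IsWellOrder.linearOrder WellOrderingRel
  have : WellFoundedLT P := ⟨(IsWellFounded.wf : WellFounded (WellOrderingRel (α := P)))⟩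
  obtain ⟨μ, hμ⟩ := Pool.Agent.Lib.helper10.ER.er 3 (P ×ₗ Fin 3) (P × P → Prop × Prop)
  refine ⟨μ, fun X _ _ D hD => ?_⟩
  have hy : ∀ p, ∃ y : μ.ord.ToType → X, Injective y ∧ ∀ a, y a ∈ D p := by
    intro p
    obtain ⟨e⟩ : Nonempty (μ.ord.ToType ↪ D p) := by
      rw [← Cardinal.le_def]
      simpa using hD p
    exact ⟨fun a => e a, Subtype.val_injective.comp e.2, fun a => (e a).2⟩
  choose y hy1 hy2 using hy
  have hU : ∀ p a b, ∃ U V : Set X, IsOpen U ∧ IsOpen V ∧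
      (a ≠ b → y p a ∈ U ∧ y p b ∈ V ∧ Disjoint U V) := by
    intro p a b
    by_cases h : a = b
    · exact ⟨∅, ∅, isOpen_empty, isOpen_empty, fun h' => absurd h h'⟩
    · obtain ⟨U, V, h1, h2, h3⟩ := t2_separation ((hy1 p).ne h)
      exact ⟨U, V, h1, h2, fun _ => h3⟩
  choose U V hU hV hUV using hU
  let f : List μ.ord.ToType → P × P → Prop × Prop := fun l q =>
    match l with
    | [c, b, a] => (y q.2 c ∈ U q.1 a b, y q.2 a ∈ U q.1 b c)
    | _ => (True, True)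
  obtain ⟨a, ha, c, hc⟩ := hμ μ.ord.ToType (by simp) f
  let g : P → Fin 3 → μ.ord.ToType := fun p i => a (toLex (p, i))
  have l1 : ∀ (p : P) (i j : Fin 3), i < j → toLex (p, i) < toLex (p, j) :=
    fun p i j h => Prod.Lex.toLex_lt_toLex.2 (Or.inr ⟨rfl, h⟩)
  have l2 : ∀ (p r : P) (i j : Fin 3), p < r → toLex (p, i) < toLex (r, j) :=
    fun p r i j h => Prod.Lex.toLex_lt_toLex.2 (Or.inl h)
  have k : ∀ u v w : P ×ₗ Fin 3, u < v → v < w → f [a w, a v, a u] = c := fun u v w h1 h2 =>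
    hc [w, v, u] (by simp [h1, h2, h1.trans h2]) rfl
  refine ⟨fun p => y p (g p 1), fun p => hy2 _ _, fun p =>
    ⟨V p (g p 0) (g p 1) ∩ U p (g p 1) (g p 2), (hV _ _ _).inter (hU _ _ _), ?_, ?_⟩⟩
  · exact ⟨(hUV p _ _ (ha (l1 p 0 1 (by decide))).ne).2.1,
      (hUV p _ _ (ha (l1 p 1 2 (by decide))).ne).1⟩
  · rintro r hr ⟨h1, h2⟩
    refine disjoint_left.1 (hUV p _ _ (ha (l1 p 0 1 (by decide))).ne).2.2 ?_ h1
    rcases hr.lt_or_gt with h | h
    · have e1 := k _ _ _ (l2 r p 1 0 h) (l1 p 0 1 (by decide))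
      have e2 := k _ _ _ (l2 r p 1 1 h) (l1 p 1 2 (by decide))
      exact (congrArg Prod.snd (congrFun (e2.trans e1.symm) (p, r))).mp h2
    · have e1 := k _ _ _ (l1 p 0 1 (by decide)) (l2 p r 1 1 h)
      have e2 := k _ _ _ (l1 p 1 2 (by decide)) (l2 p r 2 1 h)
      exact (congrArg Prod.fst (congrFun (e2.trans e1.symm) (p, r))).mp h2

theorem disc' (lam : Cardinal.{0}) : ∃ μ : Cardinal.{0}, ∀ (P : Type), #P ≤ lam →
    ∀ (X : Type) [TopologicalSpace X] [T2Space X] (D : P → Set X), (∀ p, μ ≤ #(D p)) →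
      ∃ E : Set X, DiscreteTopology E ∧ E ⊆ ⋃ p, D p ∧ ∀ p, (E ∩ D p).Nonempty := by
  obtain ⟨μ, hμ⟩ := disc lam.out
  refine ⟨μ, fun P hP X _ _ D hD => ?_⟩
  rcases isEmpty_or_nonempty P with h | h
  · exact ⟨∅, inferInstance, empty_subset _, fun p => isEmptyElim p⟩
  obtain ⟨e⟩ : Nonempty (P ↪ lam.out) := by
    rw [← Cardinal.le_def]
    simpa using hP
  obtain ⟨x, h1, h2⟩ := hμ X (fun a => D (invFun e a)) fun a => hD _
  refine ⟨range x, ?_, ?_, fun p => ⟨x (e p), mem_range_self _, ?_⟩⟩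
  · rw [discreteTopology_subtype_iff']
    rintro _ ⟨a, rfl⟩
    obtain ⟨W, h3, h4, h5⟩ := h2 a
    refine ⟨W, h3, Subset.antisymm ?_ (singleton_subset_iff.2 ⟨h4, mem_range_self _⟩)⟩
    rintro _ ⟨h6, r, rfl⟩
    by_cases h : r = a
    · rw [h]
      rfl
    · exact absurd h6 (h5 r h)
  · rintro _ ⟨a, rfl⟩
    exact mem_iUnion.2 ⟨_, h1 a⟩
  · have := h1 (e p)
    rwa [leftInverse_invFun e.injective p] at this

theorem co {I : Type} (i : I) (b : Bool) : IsOpen {x : I → Bool | x i = b} :=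
  (isOpen_discrete {b}).preimage (continuous_apply (A := fun _ => Bool) i)

theorem cyl_open {I : Type} (F : Set I) (hF : F.Finite) (y : I → Bool) :
    IsOpen {x : I → Bool | ∀ i ∈ F, x i = y i} := by
  simp only [ofPred_forall]
  exact hF.isOpen_biInter fun i _ => co _ _

theorem cyl_sub {I : Type} {V : Set (I → Bool)} (hV : IsOpen V) {y : I → Bool} (hy : y ∈ V) :
    ∃ F : Finset I, {x : I → Bool | ∀ i ∈ (F : Set I), x i = y i} ⊆ V := by
  obtain ⟨F, u, h1, h2⟩ := isOpen_pi_iff.1 hV y hy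
  exact ⟨F, fun x hx => h2 fun i hi => by rw [hx i hi]; exact (h1 i hi).2⟩

theorem big {I : Type} {μ : Cardinal.{0}} (hI : 2 ^ μ + ℵ₀ < #I) {D : Set (I → Bool)}
    (hD : Dense D) {V : Set (I → Bool)} (hV : IsOpen V) (hne : V.Nonempty) : μ ≤ #↥(D ∩ V) := by
  classical
  obtain ⟨y, hy⟩ := hne
  obtain ⟨F, hF⟩ := cyl_sub hV hy
  by_contra hn
  have hinj : Injective fun (i : ↥((F : Set I)ᶜ)) (x : ↥(D ∩ V)) => x.1 i.1 := by
    intro i j hij
    by_contra hne
    have hne' : i.1 ≠ j.1 := fun h => hne (Subtype.ext h)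
    let z := update (update y i.1 true) j.1 false
    obtain ⟨x, h1, h2⟩ := hD.inter_open_nonempty _
      (cyl_open (insert i.1 (insert j.1 (F : Set I))) (F.finite_toSet.insert _ |>.insert _) z)
      ⟨z, fun _ _ => rfl⟩
    have h3 : x ∈ V := hF fun k hk => by
      have a1 : k ≠ i.1 := fun h => i.2 (h ▸ hk)
      have a2 : k ≠ j.1 := fun h => j.2 (h ▸ hk)
      rw [h1 k (Or.inr (Or.inr hk))]
      simp [z, a1, a2]
    have h4 := congrFun hij ⟨x, h2, h3⟩
    simp only at h4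
    rw [h1 _ (Or.inl rfl), h1 _ (Or.inr (Or.inl rfl))] at h4
    simp [z, hne'] at h4
  have h1 := mk_le_of_injective hinj
  simp only [mk_pi, prod_const, lift_id, mk_fintype, Fintype.card_bool, Nat.cast_ofNat] at h1
  have h2 : #↥((F : Set I)ᶜ) ≤ 2 ^ μ := h1.trans (power_le_power_left two_ne_zero (not_le.1 hn).le)
  have h3 : #↥(F : Set I) ≤ ℵ₀ := F.finite_toSet.lt_aleph0.le
  refine hI.not_ge ?_
  rw [← mk_sum_compl (F : Set I), add_comm]
  exact add_le_add h2 h3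

theorem dsep : ∃ I : Type, Uncountable I ∧ ∀ D : ℕ → Set (I → Bool), (∀ n, Dense (D n)) →
    ∃ E : ℕ → Set (I → Bool), (∀ n, E n ⊆ D n ∧ DiscreteTopology (E n)) ∧ Dense (⋃ n, E n) := by
  classical
  choose μ hμ using disc'
  let κ : ℕ → Cardinal.{0} := fun n => Nat.rec ℵ₀ (fun _ k => Order.succ (2 ^ μ k + k)) n
  have hs : ∀ n, κ (n + 1) = Order.succ (2 ^ μ (κ n) + κ n) := fun n => rfl
  have hle : ∀ n, κ n ≤ κ (n + 1) := fun n => by
    rw [hs]
    exact le_add_self.trans (Order.le_succ _)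
  have h0 : ∀ n, ℵ₀ ≤ κ n := fun n => monotone_nat_of_le_succ hle (Nat.zero_le n)
  let I : Type := Σ n : ℕ, (κ n).out
  let mk : ∀ n, (κ n).out → I := fun n a => ⟨n, a⟩
  have hI : ∀ n, κ n ≤ #I := fun n =>
    (mk_out _).symm.trans_le (mk_le_of_injective (f := mk n)
      (sigma_mk_injective (β := fun n => (κ n).out)))
  have hI2 : ∀ n, 2 ^ μ (κ n) + ℵ₀ < #I := fun n =>
    (add_le_add le_rfl (h0 n)).trans_lt ((Order.lt_succ _).trans_le (hI (n + 1)))
  let A : ℕ → Set I := fun n => {i | i.1 ≤ n}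
  have hA : ∀ n, #(A n) ≤ κ n := by
    have hr : ∀ n, #(range (mk n)) ≤ κ n := fun n => mk_range_le.trans_eq (mk_out _)
    intro n
    induction n with
    | zero =>
      refine (mk_le_mk_of_subset ?_).trans (hr 0)
      rintro ⟨m, a⟩ h
      obtain rfl : m = 0 := Nat.le_zero.1 h
      exact mem_range_self a
    | succ n ih =>
      refine (mk_le_mk_of_subset (t := A n ∪ range (mk (n + 1))) ?_).trans
        ((mk_union_le _ _).trans (add_le_of_le (h0 (n + 1)) (ih.trans (hle n)) (hr (n + 1))))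
      rintro ⟨m, a⟩ h
      rcases Nat.le_succ_iff.1 h with h | h
      · exact Or.inl h
      · obtain rfl : m = n + 1 := h
        exact Or.inr (mem_range_self a)
  refine ⟨I, aleph0_lt_mk_iff.1 (le_add_self.trans_lt (hI2 0)), fun D hD => ?_⟩
  let cy : ∀ n, List (A n × Bool) → Set (I → Bool) := fun n l => {x | ∀ q ∈ l, x q.1 = q.2}
  have hcy : ∀ n l, IsOpen (cy n l) := by
    intro n l
    simp only [cy, ofPred_forall]
    exact l.finite_toSet.isOpen_biInter fun q _ => co _ _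
  have hP : ∀ n, #{l : List (A n × Bool) // (cy n l).Nonempty} ≤ κ n := fun n => by
    refine (mk_subtype_le _).trans ((mk_list_le_max _).trans (max_le (h0 n) ?_))
    rw [mk_prod, lift_id, lift_id]
    exact mul_le_of_le (h0 n) (hA n) (mk_le_aleph0.trans (h0 n))
  choose E e1 e2 e3 using fun n => hμ (κ n) _ (hP n) (I → Bool) (fun l => D n ∩ cy n l.1)
    fun l => big (hI2 n) (hD n) (hcy n l.1) l.2
  refine ⟨E, fun n => ⟨(e2 n).trans (iUnion_subset fun l => inter_subset_left), e1 n⟩, ?_⟩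
  rw [dense_iff_inter_open]
  rintro V hV ⟨y, hy⟩
  obtain ⟨F, hF⟩ := cyl_sub hV hy
  let n := F.sup fun i => i.1
  let l : List (A n × Bool) := F.attach.toList.map fun i =>
    (⟨i.1, Finset.le_sup (f := fun i : I => i.1) i.2⟩, y i.1)
  have hl : y ∈ cy n l := by
    intro q hq
    obtain ⟨i, -, rfl⟩ := List.mem_map.1 hq
    rfl
  obtain ⟨x, h1, -, h2⟩ := e3 n ⟨l, y, hl⟩
  exact ⟨x, hF fun i hi => h2 _ (List.mem_map.2 ⟨⟨i, hi⟩, by simp, rfl⟩), mem_iUnion.2 ⟨n, h1⟩⟩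

theorem nopi {I : Type} [Uncountable I] {ι : Type} [Countable ι] (C : ι → Set (Set (I → Bool)))
    (h1 : ∀ i, (C i).PairwiseDisjoint id) (h2 : ∀ i, ∀ U ∈ C i, IsOpen U ∧ U.Nonempty)
    (h3 : ∀ V : Set (I → Bool), IsOpen V → V.Nonempty → ∃ i, ∃ U ∈ C i, U ⊆ V) : False := by
  classical
  have h4 : ∀ U : Set (I → Bool), ∃ (y : I → Bool) (F : Finset I), IsOpen U ∧ U.Nonempty →
      {x : I → Bool | ∀ i ∈ (F : Set I), x i = y i} ⊆ U := by
    intro U
    by_cases h : IsOpen U ∧ U.Nonempty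
    · obtain ⟨y, hy⟩ := h.2
      obtain ⟨F, hF⟩ := cyl_sub h.1 hy
      exact ⟨y, F, fun _ => hF⟩
    · exact ⟨fun _ => true, ∅, fun h' => absurd h' h⟩
  choose y F hF using h4
  have hc : ∀ i, (C i).Countable := by
    intro i
    by_contra hn
    obtain ⟨U, hU, U', hU', hne, p, a1, a2⟩ := Pool.Agent.H.MP_493890.ccc
      (fun U => (F U : Set I)) (fun U => (F U).finite_toSet) y hn
    exact disjoint_left.1 (h1 i hU hU' hne) (hF U (h2 i U hU) a1) (hF U' (h2 i U' hU') a2)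
  have hc2 : (⋃ i, ⋃ U ∈ C i, (F U : Set I)).Countable :=
    countable_iUnion fun i => (hc i).biUnion fun U _ => (F U).countable_toSet
  obtain ⟨j, hj⟩ : ∃ j, j ∉ ⋃ i, ⋃ U ∈ C i, (F U : Set I) := by
    by_contra h
    push Not at h
    exact not_countable_univ (hc2.mono fun j _ => h j)
  obtain ⟨i, U, hU, hs⟩ := h3 _ (cyl_open {j} (finite_singleton j) fun _ => true)
    ⟨fun _ => true, fun _ _ => rfl⟩
  have := hs (hF U (h2 i U hU) (a := update (y U) j false) fun k hk =>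
    update_of_ne (fun e : k = j => hj (mem_iUnion.2 ⟨i, mem_iUnion₂.2 ⟨U, hU, e ▸ hk⟩⟩)) _ _) j rfl
  simp at this

end Pool.Agent.H.MP_1644e0
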